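import Pool.Agent.BXS.Stmts
import Pool.Agent.Helper96_BEC.HZC

/-!
# Squad BXS, row CUT: abstract cut offs (adapted from row HZC of squad BEC)
-/

set_option autoImplicit false

namespace Pool.Agent.BXS.H64

open Set Filter Topology MeasureTheory
open scoped InnerProductSpace ENNReal Manifold ContDiff
open Pool.Agent.BE01F Pool.Agent.BEC

noncomputable section

theorem cut (mol : MolStmt) : CutStmt := by
  intro d Ω V f c M hO hbdd hcs hc01 hcK hc1 hcM hV hΩV hf
  classical
  have hcl : IsCompact (closure Ω) := hbdd.isCompact_closure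
  obtain ⟨χ, L, hχ, hL, hLV, hχ0, hχ1⟩ := Pool.Agent.BEC.H96.ex_cut (closure Ω) V hcl hV hΩV
  -- the function `F`
  let F : E d → ℝ := fun x => χ x * f x
  have hF1 : ContDiff ℝ 1 F := by
    rw [contDiff_iff_contDiffAt]
    intro x
    by_cases hx : x ∈ L
    · exact (hχ.contDiffAt.of_le (by simp)).mul (hf.contDiffAt (hV.mem_nhds (hLV hx)))
    · have h1 : F =ᶠ[𝓝 x] fun _ => 0 := by
        filter_upwards [hL.isClosed.isOpen_compl.mem_nhds hx] with y hy
        show χ y * f y = 0
        rw [hχ0 y hy, zero_mul]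
      exact contDiffAt_const.congr_of_eventuallyEq h1
  have hFc : HasCompactSupport F := by
    refine HasCompactSupport.intro hL fun x hx => ?_
    show χ x * f x = 0
    rw [hχ0 x hx, zero_mul]
  have hFe : ∀ x ∈ Ω, F =ᶠ[𝓝 x] f := by
    intro x hx
    filter_upwards [hχ1 x (subset_closure hx)] with y hy
    show χ y * f y = f y
    rw [hy, one_mul]
  have hFf : ∀ x ∈ Ω, F x = f x := fun x hx => (hFe x hx).eq_of_nhds
  have hgFf : ∀ x ∈ Ω, gradient F x = gradient f x := fun x hx => (hFe x hx).gradient.eq_of_nhds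
  have hgF : Continuous (gradient F) := by
    unfold gradient
    exact (LinearIsometryEquiv.continuous _).comp (hF1.continuous_fderiv (by simp))
  have hgFc : HasCompactSupport (gradient F) := by
    unfold gradient
    exact (hFc.fderiv (𝕜 := ℝ)).comp_left (map_zero _)
  obtain ⟨MF, hMF⟩ := hF1.continuous.bounded_above_of_compact_support hFc
  obtain ⟨MG, hMG⟩ := hgF.bounded_above_of_compact_support hgFc
  -- the approximations
  have hex : ∀ n : ℕ, ∃ G : E d → ℝ, ContDiff ℝ ((⊤ : ℕ∞) : WithTop ℕ∞) G ∧ HasCompactSupport G ∧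
      (∀ x, |F x - G x| ≤ 1 / ((n : ℝ) + 1)) ∧
      ∀ x, ‖gradient F x - gradient G x‖ ≤ 1 / ((n : ℝ) + 1) :=
    fun n => mol d F _ hF1 hFc (by positivity)
  choose G hG hGc hG1 hG2 using hex
  have hle1 : ∀ n : ℕ, 1 / ((n : ℝ) + 1) ≤ 1 := by
    intro n
    rw [div_le_one (by positivity)]
    have : (0 : ℝ) ≤ n := Nat.cast_nonneg n
    linarith
  choose Kn hKc hKO hK0 using hcK
  let W : ℕ → E d → ℝ := fun n x => if x ∈ Ω then c n x * G n x else 0
  have hW0 : ∀ n x, x ∉ Kn n → W n x = 0 := by
    intro n x hx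
    show (if x ∈ Ω then c n x * G n x else 0) = 0
    split_ifs with h
    · rw [hK0 n x h hx, zero_mul]
    · rfl
  have hWe : ∀ n x, x ∈ Ω → W n =ᶠ[𝓝 x] fun y => c n y * G n y := by
    intro n x hx
    filter_upwards [hO.mem_nhds hx] with y hy
    exact if_pos hy
  have hWs : ∀ n, ContDiff ℝ ((⊤ : ℕ∞) : WithTop ℕ∞) (W n) := by
    intro n
    rw [contDiff_iff_contDiffAt]
    intro x
    by_cases hx : x ∈ Ω
    · have h1 : ContDiffAt ℝ ((⊤ : ℕ∞) : WithTop ℕ∞) (fun y => c n y * G n y) x :=
        ((hcs n).mul (hG n)).contDiffAt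
      exact h1.congr_of_eventuallyEq (hWe n x hx)
    · have h1 : W n =ᶠ[𝓝 x] fun _ => 0 := by
        filter_upwards [(hKc n).isClosed.isOpen_compl.mem_nhds (fun h => hx (hKO n h))] with y hy
        exact hW0 n y hy
      exact contDiffAt_const.congr_of_eventuallyEq h1
  have hWc : ∀ n, HasCompactSupport (W n) := fun n => HasCompactSupport.intro (hKc n) (hW0 n)
  have hWt : ∀ n, Test Ω (W n) := by
    intro n
    refine ⟨hWs n, hWc n, ?_⟩
    refine (closure_minimal ?_ (hKc n).isClosed).trans (hKO n)
    intro x hx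
    by_contra hc
    exact hx (hW0 n x hc)
  have hWl : ∀ x ∈ Ω, ∀ᶠ n in atTop, W n =ᶠ[𝓝 x] G n := by
    intro x hx
    filter_upwards [hc1 x hx] with n h1
    filter_upwards [h1, hWe n x hx] with y g1 g2
    rw [g2, g1, one_mul]
  have hgr : ∀ n x, x ∈ Ω → gradient F x - gradient (W n) x =
      (1 - c n x) • gradient F x + c n x • (gradient F x - gradient (G n) x) -
        G n x • gradient (c n) x := by
    intro n x hx
    have a1 : DifferentiableAt ℝ (c n) x := (hcs n).contDiffAt.differentiableAt (by simp)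
    have a2 : DifferentiableAt ℝ (G n) x := (hG n).contDiffAt.differentiableAt (by simp)
    have a4 := (a1.hasFDerivAt.mul a2.hasFDerivAt).fderiv
    have a5 : fderiv ℝ (W n) x = c n x • fderiv ℝ (G n) x + G n x • fderiv ℝ (c n) x := by
      rw [(hWe n x hx).fderiv_eq]
      exact a4
    have a6 : gradient (W n) x = c n x • gradient (G n) x + G n x • gradient (c n) x := by
      unfold gradient
      rw [a5, map_add, map_smul, map_smul]
    rw [a6, smul_sub, sub_smul, one_smul]
    abel
  have hab : ∀ n x, |1 - c n x| ≤ 1 := by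
    intro n x
    have := hc01 n x
    rw [abs_le]
    constructor <;> linarith [this.1, this.2]
  have hab2 : ∀ n x, |c n x| ≤ 1 := by
    intro n x
    rw [abs_of_nonneg (hc01 n x).1]
    exact (hc01 n x).2
  have d1 : ∀ n x, x ∈ Ω → ‖F x - W n x‖ ≤ MF + 1 := by
    intro n x hx
    have e1 : W n x = c n x * G n x := if_pos hx
    have e2 : F x - W n x = (1 - c n x) * F x + c n x * (F x - G n x) := by
      rw [e1]
      ring
    rw [e2]
    refine (norm_add_le _ _).trans (add_le_add ?_ ?_)
    · rw [norm_mul, Real.norm_eq_abs]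
      calc |1 - c n x| * ‖F x‖ ≤ 1 * ‖F x‖ :=
            mul_le_mul_of_nonneg_right (hab n x) (norm_nonneg _)
        _ = ‖F x‖ := one_mul _
        _ ≤ MF := hMF x
    · rw [norm_mul, Real.norm_eq_abs, Real.norm_eq_abs]
      calc |c n x| * |F x - G n x| ≤ 1 * 1 :=
            mul_le_mul (hab2 n x) ((hG1 n x).trans (hle1 n)) (abs_nonneg _) zero_le_one
        _ = 1 := one_mul _
  have d2 : ∀ n x, x ∈ Ω → ‖gradient F x - gradient (W n) x‖ ≤ MG + 1 + M := by
    intro n x hx
    rw [hgr n x hx]
    refine (norm_sub_le _ _).trans (add_le_add ((norm_add_le _ _).trans (add_le_add ?_ ?_)) ?_)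
    · rw [norm_smul, Real.norm_eq_abs]
      calc |1 - c n x| * ‖gradient F x‖ ≤ 1 * ‖gradient F x‖ :=
            mul_le_mul_of_nonneg_right (hab n x) (norm_nonneg _)
        _ = ‖gradient F x‖ := one_mul _
        _ ≤ MG := hMG x
    · rw [norm_smul, Real.norm_eq_abs]
      calc |c n x| * ‖gradient F x - gradient (G n) x‖ ≤ 1 * 1 :=
            mul_le_mul (hab2 n x) ((hG2 n x).trans (hle1 n)) (norm_nonneg _) zero_le_one
        _ = 1 := one_mul _
    · rw [norm_smul, Real.norm_eq_abs]
      refine hcM n x (G n x) hx ?_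
      have h3 := hG1 n x
      have h4 : G n x = f x - (F x - G n x) := by
        rw [hFf x hx]
        ring
      rw [h4]
      exact (abs_sub _ _).trans (add_le_add le_rfl h3)
  have hae : ∀ᵐ x ∂(vol Ω), x ∈ Ω := ae_restrict_mem hO.measurableSet
  haveI : IsFiniteMeasure (vol Ω) := by
    unfold vol
    exact ⟨by rw [Measure.restrict_apply_univ]; exact hbdd.measure_lt_top⟩
  have hzero : Tendsto (fun n : ℕ => 1 / ((n : ℝ) + 1)) atTop (𝓝 0) :=
    tendsto_one_div_add_atTop_nhds_zero_nat
  have cgW : ∀ n, Continuous (gradient (W n)) := by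
    intro n
    unfold gradient
    exact (LinearIsometryEquiv.continuous _).comp ((hWs n).continuous_fderiv (by simp))
  have l1 := Pool.Agent.BEC.H96.nrm_lim (μ := vol Ω) W F
    (fun n => (hWs n).continuous.aestronglyMeasurable)
    hF1.continuous.aestronglyMeasurable (MF + 1)
    (fun n => by filter_upwards [hae] with x hx using d1 n x hx)
    (by
      filter_upwards [hae] with x hx
      have h1 : Tendsto (fun n => G n x) atTop (𝓝 (F x)) := by
        rw [tendsto_iff_norm_sub_tendsto_zero]
        refine squeeze_zero (fun n => norm_nonneg _) (fun n => ?_) hzero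
        rw [norm_sub_rev, Real.norm_eq_abs]
        exact hG1 n x
      refine h1.congr' ?_
      filter_upwards [hWl x hx] with n hn
      exact hn.eq_of_nhds.symm)
  have l2 := Pool.Agent.BEC.H96.nrm_lim (μ := vol Ω) (fun n => gradient (W n)) (gradient F)
    (fun n => (cgW n).aestronglyMeasurable) hgF.aestronglyMeasurable (MG + 1 + M)
    (fun n => by filter_upwards [hae] with x hx using d2 n x hx)
    (by
      filter_upwards [hae] with x hx
      have h1 : Tendsto (fun n => gradient (G n) x) atTop (𝓝 (gradient F x)) := by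
        rw [tendsto_iff_norm_sub_tendsto_zero]
        refine squeeze_zero (fun n => norm_nonneg _) (fun n => ?_) hzero
        rw [norm_sub_rev]
        exact hG2 n x
      refine h1.congr' ?_
      filter_upwards [hWl x hx] with n hn
      exact hn.gradient.eq_of_nhds.symm)
  have e1 : F =ᵐ[vol Ω] f := by filter_upwards [hae] with x hx using hFf x hx
  have e2 : gradient F =ᵐ[vol Ω] gradient f := by filter_upwards [hae] with x hx using hgFf x hx
  have m1 : MemLp F 2 (vol Ω) := by
    haveI : IsFiniteMeasureOnCompacts (vol Ω) := inferInstance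
    exact hF1.continuous.memLp_of_hasCompactSupport hFc
  have m2 : MemLp (gradient F) 2 (vol Ω) := by
    haveI : IsFiniteMeasureOnCompacts (vol Ω) := inferInstance
    exact hgF.memLp_of_hasCompactSupport hgFc
  refine ⟨m1.ae_eq e1, m2.ae_eq e2, fun ε hε => ?_⟩
  obtain ⟨n, h1, h2⟩ := ((l1.eventually (gt_mem_nhds hε)).and (l2.eventually (gt_mem_nhds hε))).exists
  refine ⟨W n, hWt n, ?_, ?_⟩
  · have h3 : nrm Ω (fun x => f x - W n x) = eLpNorm (fun x => F x - W n x) 2 (vol Ω) := by
      refine eLpNorm_congr_ae ?_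
      filter_upwards [e1] with x hx
      rw [hx]
    rw [h3]
    exact h1
  · have h3 : nrmv Ω (fun x => gradient f x - gradient (W n) x) =
        eLpNorm (fun x => gradient F x - gradient (W n) x) 2 (vol Ω) := by
      refine eLpNorm_congr_ae ?_
      filter_upwards [e2] with x hx
      rw [hx]
    rw [h3]
    exact h2

end

end Pool.Agent.BXS.H64
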